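import Pool.Agent.X319.DM.Upper

/-!
# MP_6a97ae_co: the order of growth of `R(n)` is `n ^ (2/3)`

The set of the numbers `a_i = ⌊5 i ^ (3/2)⌋` is admissible: for `h = j - i` the function
`5 ((i + h) ^ (3/2) - i ^ (3/2))` of `i` increases by at least `25 h ^ 2 / (4 (s + 1))` per step while it is less
than `s + 1`, so at most `1 + 8 (s + 1) / (25 h ^ 2)` values of `i` give the difference `s`, and only
`h ≤ s / 5` occur.
-/

set_option autoImplicit false

namespace Pool.Agent.Results.MP_6a97ae_co.OrderOfGrowth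

open Pool.Agent.X319.DM

theorem result : ∀ n : ℕ, 1 ≤ n →
    (n : ℝ) ^ (2 / 3 : ℝ) / 6 ≤ R n ∧ (R n : ℝ) ≤ 6 * (n : ℝ) ^ (2 / 3 : ℝ) :=
  fun n hn => ⟨lower n hn, upper n hn⟩

end Pool.Agent.Results.MP_6a97ae_co.OrderOfGrowth
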